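import Pool.Agent.N71.RP.Stm

/-!
Project RP of helper71: the upper bounds BB and B2 for `L(1, f)` (helper386).
-/

set_option autoImplicit false

namespace Pool.Agent.N386.RP.BB

open Finset Filter
open Pool.Agent.N71.RP (Chr cv r2 la gy E_TWO E_UPP E_POS E_BB E_B2)

theorem PP_pos {f : ℕ → ℝ} {Q : ℝ} (hf : Chr f Q) (z : ℕ) : 0 < Pool.Agent.N71.RP.PP f z := by
  unfold Pool.Agent.N71.RP.PP
  refine Finset.prod_pos fun p hp => ?_
  rw [Finset.mem_filter] at hp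
  have h2 : (2 : ℝ) ≤ p := by exact_mod_cast hp.2.two_le
  have h1 : f p ≤ 1 := by
    rcases hf.val p with h | h | h <;> rw [h] <;> norm_num
  have h3 : f p / p ≤ 1 / 2 := by
    rw [div_le_div_iff₀ (by linarith) two_pos]
    linarith
  rw [inv_pos]
  linarith

/-- the sum with the exponent `-β` -/
theorem sum_le (hPOS : E_POS) {f : ℕ → ℝ} {Q : ℝ} (hf : Chr f Q) {β : ℝ} (hβ : β < 1) {N : ℕ} :
    ∑ n ∈ Finset.Icc 1 N, r2 f n * (n : ℝ) ^ (-β) ≤
      (N : ℝ) ^ (1 - β) * ∑ n ∈ Finset.Icc 1 N, r2 f n / n := by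
  rw [Finset.mul_sum]
  refine Finset.sum_le_sum fun n hn => ?_
  rw [Finset.mem_Icc] at hn
  have h0 := (hPOS f f Q hf hf).1 n
  have hn0 : (0 : ℝ) < n := by exact_mod_cast (by omega : 0 < n)
  have hnN : (n : ℝ) ≤ N := by exact_mod_cast hn.2
  have h1 : (n : ℝ) ^ (-β) = (n : ℝ) ^ (1 - β) / n := by
    rw [eq_div_iff hn0.ne', ← Real.rpow_add_one hn0.ne']
    congr 1
    ring
  rw [h1, mul_div_assoc', mul_comm (r2 f n), mul_div_assoc]
  exact mul_le_mul_of_nonneg_right (Real.rpow_le_rpow hn0.le hnN (by linarith))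
    (div_nonneg h0 hn0.le)

theorem one_le_sum (hPOS : E_POS) {f : ℕ → ℝ} {Q : ℝ} (hf : Chr f Q) (β : ℝ) {N : ℕ}
    (hN : 1 ≤ N) : 1 ≤ ∑ n ∈ Finset.Icc 1 N, r2 f n * (n : ℝ) ^ (-β) := by
  have h1 : r2 f 1 * ((1 : ℕ) : ℝ) ^ (-β) = 1 := by
    rw [(hPOS f f Q hf hf).2.2.1, Nat.cast_one, Real.one_rpow, mul_one]
  rw [← h1]
  refine Finset.single_le_sum (f := fun n : ℕ => r2 f n * (n : ℝ) ^ (-β)) (fun n hn => ?_)
    (Finset.mem_Icc.2 ⟨le_rfl, hN⟩)
  exact mul_nonneg ((hPOS f f Q hf hf).1 n) (Real.rpow_nonneg (Nat.cast_nonneg n) _)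

theorem floor_pow (X a : ℕ) : ⌊(X : ℝ) ^ a⌋₊ = X ^ a := by
  rw [← Nat.cast_pow, Nat.floor_natCast]

theorem small {X : ℕ} (hX : 1 ≤ X) : 1 / (X : ℝ) ^ 8 ≤ 1 := by
  have h1 : (1 : ℝ) ≤ X := by exact_mod_cast hX
  rw [div_le_one (by positivity)]
  exact one_le_pow₀ h1

theorem t_BB (hTWO : E_TWO) (hUPP : E_UPP) (hPOS : E_POS) : E_BB := by
  obtain ⟨X₁, hX₁, h1⟩ := hTWO 64 (by norm_num)
  obtain ⟨C, hC, h2⟩ := hUPP 64
  refine ⟨2 * C, X₁, by positivity, hX₁, fun X hX f hf β hβ hβ1 hg => ?_⟩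
  have hX3 : 3 ≤ X := hX₁.trans hX
  have hXr : (1 : ℝ) ≤ X := by exact_mod_cast (by omega : 1 ≤ X)
  obtain ⟨z, -, h3⟩ := h1 X hX f hf β hβ hβ1
  have h4 := h3 ((X : ℝ) ^ 64) (pow_le_pow_right₀ hXr (by norm_num)) le_rfl
  rw [floor_pow, hg, mul_zero, sub_zero] at h4
  have h5 := (abs_le.1 h4).1
  have h6 := small (X := X) (by omega)
  have h7 := one_le_sum hPOS hf β (N := X ^ 64) (Nat.one_le_pow _ _ (by omega))
  have h8 := sum_le hPOS hf hβ1 (N := X ^ 64)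
  have h9 := h2 X (by omega) f _ hf
  have ht : 0 < ((X : ℝ) ^ 64) ^ (1 - β) := Real.rpow_pos_of_pos (by positivity) _
  rw [Nat.cast_pow] at h8
  have h10 := h8.trans (mul_le_mul_of_nonneg_left h9 ht.le)
  have hb : 0 < 1 - β := by linarith
  have h11 : la f (X ^ 16) / (1 - β) * ((X : ℝ) ^ 64) ^ (1 - β) ≤
      (2 * (C * (Real.log X * Pool.Agent.N71.RP.PP f X))) * ((X : ℝ) ^ 64) ^ (1 - β) := by
    linarith
  have h12 := le_of_mul_le_mul_right h11 ht
  rw [div_le_iff₀ hb] at h12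
  linarith

theorem t_B2 (hTWO : E_TWO) (hUPP : E_UPP) (hPOS : E_POS) : E_B2 := by
  obtain ⟨X₁, hX₁, h1⟩ := hTWO 128 (by norm_num)
  obtain ⟨C, hC, h2⟩ := hUPP 128
  refine ⟨3 * Real.exp 128 * C, X₁, by positivity, hX₁, fun X hX f hf => ?_⟩
  have hP := PP_pos hf X
  rcases le_or_gt (la f (X ^ 16)) 0 with hla | hla
  · exact hla.trans (by positivity)
  have hX3 : 3 ≤ X := hX₁.trans hX
  have hXr : (1 : ℝ) ≤ X := by exact_mod_cast (by omega : 1 ≤ X)
  have hX0 : (0 : ℝ) < X := by linarith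
  have hL : 0 < Real.log X := Real.log_pos (by exact_mod_cast (by omega : 1 < X))
  obtain ⟨β, hβ⟩ : ∃ β, β = 1 - 1 / Real.log X := ⟨_, rfl⟩
  have hL' : 0 < 1 / Real.log X := by positivity
  have hβ1 : β < 1 := by rw [hβ]; linarith
  obtain ⟨z, -, h3⟩ := h1 X hX f hf β hβ.ge hβ1
  have h4 := h3 ((X : ℝ) ^ 64) (pow_le_pow_right₀ hXr (by norm_num))
    (pow_le_pow_right₀ hXr (by norm_num))
  have h4' := h3 ((X : ℝ) ^ 128) (pow_le_pow_right₀ hXr (by norm_num)) le_rfl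
  rw [floor_pow] at h4 h4'
  have h5 := (abs_le.1 h4).2
  have h5' := (abs_le.1 h4').1
  have h6 := small (X := X) (by omega)
  have h7 := one_le_sum hPOS hf β (N := X ^ 64) (Nat.one_le_pow _ _ (by omega))
  have h7' := one_le_sum hPOS hf β (N := X ^ 128) (Nat.one_le_pow _ _ (by omega))
  have h8 := sum_le hPOS hf hβ1 (N := X ^ 128)
  have h9 := h2 X (by omega) f _ hf
  have hpow : ∀ a : ℕ, ((X : ℝ) ^ a) ^ (1 - β) = Real.exp a := by
    intro a
    have e1 : 1 - β = 1 / Real.log X := by rw [hβ]; ring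
    rw [e1, ← Real.rpow_natCast, ← Real.rpow_mul hX0.le, Real.rpow_def_of_pos hX0]
    congr 1
    field_simp
  rw [Nat.cast_pow, hpow] at h8
  rw [hpow] at h5 h5'
  have h10 := h8.trans (mul_le_mul_of_nonneg_left h9 (Real.exp_pos _).le)
  push_cast at h5 h5' h10
  have e2 : la f (X ^ 16) / (1 - β) = la f (X ^ 16) * Real.log X := by
    have e1 : 1 - β = 1 / Real.log X := by rw [hβ]; ring
    rw [e1]
    field_simp
  rw [e2] at h5 h5'
  have h11 : la f (X ^ 16) * Real.log X * (Real.exp 128 - Real.exp 64) ≤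
      3 * (Real.exp 128 * (C * (Real.log X * Pool.Agent.N71.RP.PP f X))) := by
    nlinarith
  have h12 : 1 ≤ Real.exp 128 - Real.exp 64 := by
    have e3 : Real.exp 128 = Real.exp 64 * Real.exp 64 := by
      rw [← Real.exp_add]
      norm_num
    have e4 := Real.add_one_le_exp (64 : ℝ)
    nlinarith
  have h13 : la f (X ^ 16) * Real.log X ≤
      3 * (Real.exp 128 * (C * (Real.log X * Pool.Agent.N71.RP.PP f X))) := by
    refine le_trans ?_ h11
    exact le_mul_of_one_le_right (by positivity) h12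
  have h14 : la f (X ^ 16) * Real.log X ≤
      (3 * Real.exp 128 * C * Pool.Agent.N71.RP.PP f X) * Real.log X := by
    refine h13.trans (le_of_eq ?_)
    ring
  exact le_of_mul_le_mul_right h14 hL

end Pool.Agent.N386.RP.BB
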